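import Pool.Agent.Work.MP_0d53be_an.Cnt

/-!
MP_0d53be_an, full negative answer: definitions.

Combinatorial part: finitely supported probability vectors on `ℤ × ℤ`, box masses, smoothed
entropies, cell profiles, windows, good pairs of windows, difference sets.
Analytic part: exponents (absolutely summable sequences), the directions `Ew`, near returns.
-/

set_option autoImplicit false

namespace Pool.Agent.Work.MP_0d53be_an.Full

open MeasureTheory Set Filter Topology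
open scoped Pointwise

/-! ### Combinatorial part -/

/-- The lattice. -/
abbrev G : Type := ℤ × ℤ

/-- The embedding of the lattice in the plane. -/
noncomputable def toC (z : G) : ℂ := ⟨z.1, z.2⟩

/-- The box `{0, …, 2 ^ s - 1}²`. -/
noncomputable def box (s : ℕ) : Finset G := Finset.Ico (0 : ℤ) (2 ^ s) ×ˢ Finset.Ico (0 : ℤ) (2 ^ s)

/-- The mass of the box with upper right corner `z`: `∑_{b ∈ box s} p (z - b)`. -/
noncomputable def mass (p : G → ℝ) (s : ℕ) (z : G) : ℝ := ∑ b ∈ box s, p (z - b)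

/-- A probability vector with support exactly `A`. -/
structure Prb (A : Finset G) (p : G → ℝ) : Prop where
  pos : ∀ z ∈ A, 0 < p z
  supp : ∀ z, z ∉ A → p z = 0
  sum_one : ∑ z ∈ A, p z = 1

/-- The convolution square. -/
noncomputable def conv (A : Finset G) (p : G → ℝ) : G → ℝ := fun z => ∑ x ∈ A, p x * p (z - x)

/-- The smoothed entropy at scale `2 ^ s` (natural logarithms). -/
noncomputable def hh (p : G → ℝ) (s : ℕ) : ℝ := (∑' z : G, Real.negMulLog (mass p s z)) / 4 ^ s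

/-- The drop between the scales `s ≤ t`. -/
noncomputable def drop (A : Finset G) (p : G → ℝ) (s t : ℕ) : ℝ :=
  (hh (conv A p) s - hh (conv A p) t) - (hh p s - hh p t)

/-- The cell profile: the share of the cell `u` (side `2 ^ s`) in the box of side `2 ^ t` with
upper right corner `ζ`. -/
noncomputable def kap (p : G → ℝ) (s t : ℕ) (ζ u : G) : ℝ :=
  mass p s (ζ - (2 : ℤ) ^ s • u) / mass p t ζ

/-- The distance between the profile of `p` at `ζ` and the profile of `p * p` at `ζ + x`. -/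
noncomputable def err (A : Finset G) (p : G → ℝ) (s t : ℕ) (ζ x : G) : ℝ :=
  ∑ u ∈ box (t - s), |kap p s t ζ u - kap (conv A p) s t (ζ + x) u|

/-- The mass of a finite set. -/
noncomputable def pm (p : G → ℝ) (S : Finset G) : ℝ := ∑ x ∈ S, p x

/-- The window with index `w` and side `2 ^ v`. -/
noncomputable def win (v : ℕ) (w : G) : Finset G :=
  Finset.Ico (2 ^ v * w.1) (2 ^ v * w.1 + 2 ^ v) ×ˢ Finset.Ico (2 ^ v * w.2) (2 ^ v * w.2 + 2 ^ v)

/-- The union of the boxes `ζ - box t`, `ζ ∈ win v w`. -/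
noncomputable def hull (v t : ℕ) (w : G) : Finset G :=
  Finset.Ioo (2 ^ v * w.1 - 2 ^ t) (2 ^ v * w.1 + 2 ^ v) ×ˢ
    Finset.Ioo (2 ^ v * w.2 - 2 ^ t) (2 ^ v * w.2 + 2 ^ v)

/-- The intersection of the boxes `ζ - box t`, `ζ ∈ win v w`. -/
noncomputable def core (v t : ℕ) (w : G) : Finset G :=
  Finset.Ioc (2 ^ v * w.1 + 2 ^ v - 1 - 2 ^ t) (2 ^ v * w.1) ×ˢ
    Finset.Ioc (2 ^ v * w.2 + 2 ^ v - 1 - 2 ^ t) (2 ^ v * w.2)

/-- The average of `err` over the anchors in a window. -/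
noncomputable def avgE (A : Finset G) (p : G → ℝ) (s t v : ℕ) (w x : G) : ℝ :=
  (∑ ζ ∈ win v w, err A p s t ζ x) / 4 ^ v

/-- The average of `avgE` over the points of `hull v t w'`, times the mass. -/
noncomputable def avgEE (A : Finset G) (p : G → ℝ) (s t v : ℕ) (w w' : G) : ℝ :=
  ∑ x ∈ hull v t w', p x * avgE A p s t v w x

/-- Regular windows. -/
def Reg (p : G → ℝ) (v t : ℕ) (w : G) : Prop :=
  0 < pm p (core v t w) ∧ pm p (hull v t w) ≤ 2 * pm p (core v t w)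

/-- Good pairs of windows. -/
structure GoodPair (A : Finset G) (p : G → ℝ) (s t v : ℕ) (h : ℝ) (w w' : G) : Prop where
  reg : Reg p v t w
  reg' : Reg p v t w'
  le : avgEE A p s t v w w' ≤ h ^ 4 * pm p (hull v t w')
  le' : avgEE A p s t v w' w ≤ h ^ 4 * pm p (hull v t w)

open Classical in
/-- The good points of `hull v t w'` (with respect to the anchors in `win v w`). -/
noncomputable def Gs (A : Finset G) (p : G → ℝ) (s t v : ℕ) (h : ℝ) (w w' : G) : Finset G :=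
  (hull v t w').filter (fun x => x ∈ A ∧ avgE A p s t v w x ≤ h ^ 2)

/-- The set of the differences of norm at most `2 ^ v / 8` of good points, in the plane. -/
def DC (A : Finset G) (p : G → ℝ) (s t v : ℕ) (h : ℝ) (w w' : G) : Set ℂ :=
  {d | ∃ x ∈ Gs A p s t v h w w', ∃ y ∈ Gs A p s t v h w w', d = toC (x - y) ∧
    8 * ‖d‖ ≤ 2 ^ v}

/-- Approximate local groups in the plane, with tolerance `τ` and radius `V`. -/
structure AppGrp (D : Set ℂ) (τ V : ℝ) : Prop where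
  fin : D.Finite
  zero : (0 : ℂ) ∈ D
  neg : ∀ d ∈ D, -d ∈ D
  bd : ∀ d ∈ D, ‖d‖ ≤ V
  add : ∀ d ∈ D, ∀ d' ∈ D, ‖d + d'‖ ≤ V - τ → ∃ d'' ∈ D, ‖d'' - (d + d')‖ ≤ τ

/-- The finite set `S` is dense near the plane disc of radius `J w` around `q`, at scale `w`. -/
def PlaneDense (S : Finset G) (q : ℂ) (w J : ℝ) : Prop :=
  ∀ ζ : ℂ, ‖ζ‖ ≤ J * w → ∃ z ∈ S, ‖toC z - (q + ζ)‖ ≤ 6 * w

/-- The finite set `S` is dense near the segment `{q + r β : |r| ≤ L}`, at scale `g`. -/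
def LineDense (S : Finset G) (q β : ℂ) (g L : ℝ) : Prop :=
  ∀ r : ℝ, |r| ≤ L → ∃ z ∈ S, ‖toC z - (q + r * β)‖ ≤ g

/-! ### Analytic part -/

/-- Exponents: the sequence `x` stands for `∑ x_j (2 b)^(j+1)`. -/
abbrev Ex : Type := lp (fun _ : ℕ => ℂ) 1

theorem memEx {g : ℕ → ℂ} (h : Summable (fun i => ‖g i‖)) : Memℓp g 1 := by
  refine memℓp_gen ?_
  simpa using h

/-- The coordinates of `Ew`. -/
noncomputable def Ewf (θ : ℝ) (ξ : ℂ) (j : ℕ) : ℂ :=
  (-1) ^ j * (Complex.exp (θ * Complex.I) / 2) ^ (j + 1) *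
    (((ξ.re / (j + 1) : ℝ) : ℂ) + (ξ.im : ℂ) * Complex.I)

theorem Ewf_le (θ : ℝ) (ξ : ℂ) (j : ℕ) : ‖Ewf θ ξ j‖ ≤ (1 / 2) ^ (j + 1) * ‖ξ‖ := by
  unfold Ewf
  rw [norm_mul, norm_mul, norm_pow, norm_neg, norm_one, one_pow, one_mul, norm_pow, norm_div,
    Complex.norm_exp_ofReal_mul_I, Complex.norm_ofNat]
  refine mul_le_mul_of_nonneg_left ?_ (by positivity)
  have h : ((ξ.re / (j + 1) : ℝ) : ℂ) + (ξ.im : ℂ) * Complex.I = ⟨ξ.re / (j + 1), ξ.im⟩ := by
    apply Complex.ext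
    · rw [Complex.add_re, Complex.ofReal_re, Complex.re_ofReal_mul, Complex.I_re, mul_zero, add_zero]
    · rw [Complex.add_im, Complex.ofReal_im, Complex.im_ofReal_mul, Complex.I_im, mul_one, zero_add]
  rw [h, Complex.norm_eq_sqrt_sq_add_sq, Complex.norm_eq_sqrt_sq_add_sq]
  refine Real.sqrt_le_sqrt ?_
  have h1 : (ξ.re / (j + 1)) ^ 2 ≤ ξ.re ^ 2 := by
    rw [div_pow]
    refine div_le_self (sq_nonneg _) ?_
    have : (0 : ℝ) ≤ j := Nat.cast_nonneg j
    nlinarith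
  change (ξ.re / (j + 1)) ^ 2 + ξ.im ^ 2 ≤ ξ.re ^ 2 + ξ.im ^ 2
  linarith

theorem Ewf_summable (θ : ℝ) (ξ : ℂ) : Summable (fun j => ‖Ewf θ ξ j‖) := by
  refine Summable.of_nonneg_of_le (fun _ => norm_nonneg _) (Ewf_le θ ξ) ?_
  refine Summable.mul_right _ ?_
  exact (summable_nat_add_iff 1).2 (summable_geometric_of_lt_one (by norm_num) (by norm_num))

/-- The displacement `ξ` in the direction `e^{iθ}`: the coefficient of `b^(j+1)` is
`(-1)^j e^{i(j+1)θ} (Re ξ / (j+1) + i Im ξ)`. -/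
noncomputable def Ew (θ : ℝ) (ξ : ℂ) : Ex := ⟨Ewf θ ξ, memEx (Ewf_summable θ ξ)⟩

theorem Ew_apply (θ : ℝ) (ξ : ℂ) (j : ℕ) : Ew θ ξ j = Ewf θ ξ j := rfl

/-- The powers of `2 b` are bounded. -/
def PB {R : Type*} [NormedRing R] [NormedAlgebra ℂ R] (b : R) : Prop :=
  ∃ C : ℝ, ∀ n : ℕ, ‖((2 : ℂ) • b) ^ n‖ ≤ C

/-- The value of an exponent. -/
noncomputable def ev {R : Type*} [NormedRing R] [NormedAlgebra ℂ R] (b : R) (x : Ex) : R :=
  ∑' j : ℕ, x j • ((2 : ℂ) • b) ^ (j + 1)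

variable {B : Type*} [NormedCommRing B] [NormedAlgebra ℂ B]

/-- Quasi-nilpotent elements. -/
def QNb (b : B) : Prop := ∀ r : ℝ, 0 < r → ∃ C : ℝ, ∀ j : ℕ, r ^ j * ‖b ^ j‖ ≤ C

/-- Near returns (with `M` factors `b` and tolerance `ε`). -/
def NR (b : B) (M : ℕ) (ε : ℝ) (x : Ex) : Prop :=
  ∃ l : ℂ, ‖l‖ = 1 ∧ ‖NormedSpace.exp (ev b x) * b ^ M - l • b ^ M‖ ≤ ε

/-- The set of the angles at which `n` is a near return. -/
def Vn (b : B) (ε : ℝ) (n : ℕ) : Set ℝ :=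
  {θ | ∃ l : ℂ, ‖l‖ = 1 ∧ ‖b * (1 + Complex.exp (θ * Complex.I) • b) ^ n - l • b‖ < ε}

end Pool.Agent.Work.MP_0d53be_an.Full
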