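import Pool.Agent.Work.MP_0d53be_an.Full.Z.AlgC

/-!
# The full answer

`Supercyclic a`: the set `{l a^n : l ∈ ℂ, n ≥ 1}` is dense. `WildlyChaotic A`: some supercyclic `a` has
the property that `{a (z + a)^n : n ≥ 1}` is dense for every `z` with `|z| = 1`.
-/

set_option autoImplicit false

namespace Pool.Agent.Work.MP_0d53be_an.Full

open MeasureTheory

/-- The multiples of the powers of `a` are dense. -/
def Supercyclic {A : Type*} [NonUnitalNormedRing A] [NormedSpace ℂ A] [SMulCommClass ℂ A A]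
    [IsScalarTower ℂ A A] (a : A) : Prop :=
  Dense {x : A | ∃ (l : ℂ) (n : ℕ), 1 ≤ n ∧ x = l • apow a n}

/-- Some supercyclic `a` has a dense orbit `{a (z + a)^n : n ≥ 1}` for every `z` with `|z| = 1`. -/
def WildlyChaotic (A : Type*) [NonUnitalNormedRing A] [NormedSpace ℂ A] [SMulCommClass ℂ A A]
    [IsScalarTower ℂ A A] : Prop :=
  ∃ a : A, Supercyclic a ∧ ∀ z : ℂ, ‖z‖ = 1 → Dense {x : A | ∃ n : ℕ, 1 ≤ n ∧ x = orb a z n}

theorem not_wildlyChaotic {A : Type*} [NonUnitalNormedRing A] [NormedSpace ℂ A]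
    [SMulCommClass ℂ A A] [IsScalarTower ℂ A A] [CompleteSpace A]
    (hA : ¬ FiniteDimensional ℂ A) : ¬ WildlyChaotic A := by
  rintro ⟨a, -, h⟩
  have h1 := ae_not_dense hA a
  obtain ⟨θ, hθ⟩ := h1.exists
  exact hθ (h _ (Complex.norm_exp_ofReal_mul_I θ))

end Pool.Agent.Work.MP_0d53be_an.Full
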